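import Pool.Agent.V11287.BF8

/-!
# MP_6fe4ed_an

For `n = 3`, `s = 1` and `ν = -δ ∈ (n-2s-2, n-2s-1) = (-1,0)` with `0 < δ ≤ 1/1000`, the function
`f_{ν,3}` has no Fourier critical point, so Q1 is false.
-/

open Set Pool.Agent.V11287.BF

namespace Pool.Agent.Results.MP_6fe4ed_an.NoCriticalPoints

noncomputable section

/-- `f_{ν,n}(x) = ∑ Γ(2m+ν+1) / (m! Γ(m+ν+1) Γ(2m+ν-n+1)) x^m`. -/
def f (ν : ℝ) (n : ℕ) (x : ℝ) : ℝ :=
  ∑' m : ℕ, Real.Gamma (2 * m + ν + 1) / (m.factorial * Real.Gamma (m + ν + 1) *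
      Real.Gamma (2 * m + ν - n + 1)) * x ^ m

/-- `g^{(l)}` vanishes at `c` to order exactly `m ≥ 1`. -/
def ZeroOfOrder (g : ℝ → ℝ) (l : ℕ) (c : ℝ) (m : ℕ) : Prop :=
  1 ≤ m ∧ (∀ j < m, iteratedDeriv (l + j) g c = 0) ∧ iteratedDeriv (l + m) g c ≠ 0

open Classical in
/-- the number `k` of critical zeros of `g^{(l)}` at a zero `c` of order `m` -/
def numCritical (g : ℝ → ℝ) (l : ℕ) (c : ℝ) (m : ℕ) : ℕ :=
  if iteratedDeriv (l - 1) g c = 0 then 0
  else if Even m then m / 2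
  else if 0 < iteratedDeriv (l - 1) g c * iteratedDeriv (l + m) g c then (m + 1) / 2
  else (m - 1) / 2

/-- Fourier critical points of `g` -/
def IsFourierCriticalPoint (g : ℝ → ℝ) (c : ℝ) : Prop :=
  ∃ l m : ℕ, 1 ≤ l ∧ ZeroOfOrder g l c m ∧ 0 < numCritical g l c m

theorem no_critical (δ : ℝ) (hδ0 : 0 < δ) (hδ : δ ≤ 1 / 1000) :
    {c | IsFourierCriticalPoint (f (-δ) 3) c} = ∅ := by
  have hδ1 : δ < 1 := by linarith
  have hf : f (-δ) 3 = fR (aH (kap δ) δ) := by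
    ext x
    unfold f fR
    congr 1
    ext m
    rw [coef_H δ hδ0 hδ1 m]
  have hlim := lim_H (kap δ) δ hδ0 hδ
  have hit : ∀ l, iteratedDeriv l (f (-δ) 3) = fR (D^[l] (aH (kap δ) δ)) := by
    intro l
    rw [hf, hlim.pb.iteratedDeriv l]
  rw [eq_empty_iff_forall_notMem]
  rintro c ⟨l, m, hl, ⟨hm, hz, hnz⟩, hk⟩
  obtain ⟨l, rfl⟩ : ∃ l', l = l' + 1 := ⟨l - 1, by omega⟩
  have hl1 : l + 1 - 1 = l := by omega
  unfold numCritical at hk
  rw [hl1] at hk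
  by_cases h0 : iteratedDeriv l (f (-δ) 3) c = 0
  · rw [if_pos h0] at hk
    exact lt_irrefl 0 hk
  rw [if_neg h0] at hk
  have hlag := laguerre_H (kap δ) δ hδ0 hδ (kap_pos δ hδ1).ne' l c (by rw [← hit]; exact h0)
  rw [← hit, ← hit, ← hit] at hlag
  have h1 := hz 0 (by omega)
  rw [add_zero] at h1
  rw [h1] at hlag
  have hneg : iteratedDeriv l (f (-δ) 3) c * iteratedDeriv (l + 2) (f (-δ) 3) c < 0 := by
    nlinarith
  have hm1 : m = 1 := by
    by_contra hne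
    have h2 := hz 1 (by omega)
    have e : l + 1 + 1 = l + 2 := by ring
    rw [e] at h2
    rw [h2, mul_zero] at hneg
    exact lt_irrefl _ hneg
  subst hm1
  have e : l + 1 + 1 = l + 2 := by ring
  rw [if_neg (by decide), e, if_neg (not_lt.mpr hneg.le)] at hk
  exact absurd hk (by decide)

/-- **Main result.**  For `0 < δ ≤ 1/1000` the function `f_{-δ,3}` has no Fourier critical point
at all (while the conjecture, with `n = 3`, `s = 1`, predicts exactly one).  Hence Q1 is false. -/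
theorem result :
    (∀ δ : ℝ, 0 < δ → δ ≤ 1 / 1000 → {c | IsFourierCriticalPoint (f (-δ) 3) c} = ∅) ∧
    ¬ ∀ (n s : ℕ) (ν : ℝ), ν ∈ Ioo ((n : ℝ) - 2 * s - 2) ((n : ℝ) - 2 * s - 1) →
      {c | IsFourierCriticalPoint (f ν n) c}.encard = s ∧
        {x : ℝ | 0 < x ∧ f ν n x = 0}.encard = 1 := by
  refine ⟨no_critical, fun h => ?_⟩
  have h1 := (h 3 1 (-(1 / 1000)) (by constructor <;> norm_num)).1
  rw [no_critical (1 / 1000) (by norm_num) le_rfl] at h1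
  simp at h1

end

end Pool.Agent.Results.MP_6fe4ed_an.NoCriticalPoints
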